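import Pool.Agent.Q123.XP.Strong

/-!
Problem MP_850839_an (Kakeya conjecture for families of delta-tubes): the inequality in the full
range, without loss, in terms of the average number of crossing places per tube.
-/

set_option autoImplicit false

open MeasureTheory Set Metric
open scoped ENNReal

namespace Pool.Agent.Results.MP_850839_an.CrossingPlaces

/-- The `δ`-tube with centre `a` and direction `e` (a unit vector): the closed cylinder of length
`1` and radius `δ` around the segment with centre `a` and direction `e`. -/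
def tube {n : ℕ} (δ : ℝ) (a e : EuclideanSpace ℝ (Fin n)) : Set (EuclideanSpace ℝ (Fin n)) :=
  {y | |inner ℝ (y - a) e| ≤ 1 / 2 ∧ ‖(y - a) - (inner ℝ (y - a) e) • e‖ ≤ δ}

/-- The multiplicity function `∑ 1_T` of a finite family of tubes. -/
noncomputable def mult {n : ℕ} {ι : Type} [Fintype ι] (δ : ℝ)
    (a e : ι → EuclideanSpace ℝ (Fin n)) (x : EuclideanSpace ℝ (Fin n)) : ℝ :=
  ∑ i, (tube δ (a i) (e i)).indicator (fun _ => (1 : ℝ)) x

/-- The finite sets `P i` contain the *crossing places* of the tubes, with tolerance `K`: if `x` is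
a common point of the tube number `i` and of another tube, then there is a point `p` of `P i` whose
distance from `x` is at most `K δ` divided by the angle of the two tubes. (The set of the common
points of two tubes always has a diameter of this order.) -/
def CrossingPlaces {n : ℕ} {ι : Type} (K δ : ℝ) (a e : ι → EuclideanSpace ℝ (Fin n))
    (P : ι → Finset (EuclideanSpace ℝ (Fin n))) : Prop :=
  ∀ i j, i ≠ j → ∀ x ∈ tube δ (a i) (e i) ∩ tube δ (a j) (e j),
    ∃ p ∈ P i, ‖x - p‖ * min ‖e i - e j‖ ‖e i + e j‖ ≤ K * δ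

/-- `δ`-separated unit vectors. -/
def Separated {n : ℕ} {ι : Type} (δ : ℝ) (e : ι → EuclideanSpace ℝ (Fin n)) : Prop :=
  (∀ i, ‖e i‖ = 1) ∧ ∀ i j, i ≠ j → δ ≤ ‖e i - e j‖

theorem result (n : ℕ) (hn : 2 ≤ n) :
    -- (1) the conjectured inequality, for all `q > n / (n - 1)`
    (∀ q : ℝ, (n : ℝ) / ((n : ℝ) - 1) < q → ∃ C : ℝ, 0 < C ∧ ∀ δ : ℝ, 0 < δ → δ < 1 →
      ∀ (ι : Type) [Fintype ι] (a e : ι → EuclideanSpace ℝ (Fin n)), Separated δ e →
      ∀ (K M : ℝ), 0 < K → ∀ P : ι → Finset (EuclideanSpace ℝ (Fin n)), CrossingPlaces K δ a e P →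
      ∑ i, ((P i).card : ℝ) ≤ M * Fintype.card ι →
      eLpNorm (mult δ a e) (ENNReal.ofReal q) volume ≤
        ENNReal.ofReal (C * (1 + K * M) ^ (1 / q) * δ ^ (((n : ℝ) - 1) / q) *
          (Fintype.card ι : ℝ) ^ (1 - 1 / (q * ((n : ℝ) - 1))))) ∧
    -- (2) the inequality of weak type at the critical exponent `n / (n - 1)`
    (∃ C : ℝ, 0 < C ∧ ∀ δ : ℝ, 0 < δ → δ < 1 →
      ∀ (ι : Type) [Fintype ι] (a e : ι → EuclideanSpace ℝ (Fin n)), Separated δ e →
      ∀ (K M : ℝ), 0 < K → ∀ P : ι → Finset (EuclideanSpace ℝ (Fin n)), CrossingPlaces K δ a e P →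
      ∑ i, ((P i).card : ℝ) ≤ M * Fintype.card ι → ∀ s : ℝ, 0 < s →
      volume {x | s < mult δ a e x} ≤
        ENNReal.ofReal (C * (1 + K * M) * (Fintype.card ι * δ ^ (n - 1)) *
          s ^ (-((n : ℝ) / ((n : ℝ) - 1))))) ∧
    -- (3) sets that contain a proportion `lam` of the tubes
    (∃ c : ℝ, 0 < c ∧ ∀ δ : ℝ, 0 < δ → δ < 1 →
      ∀ (ι : Type) [Fintype ι] (a e : ι → EuclideanSpace ℝ (Fin n)), Separated δ e →
      ∀ (K M : ℝ), 0 < K → ∀ P : ι → Finset (EuclideanSpace ℝ (Fin n)), CrossingPlaces K δ a e P →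
      ∑ i, ((P i).card : ℝ) ≤ M * Fintype.card ι →
      ∀ (lam : ℝ) (A : Set (EuclideanSpace ℝ (Fin n))), 0 < lam → MeasurableSet A →
      ENNReal.ofReal (lam * (Fintype.card ι * δ ^ (n - 1))) ≤
        ∑ i, volume (tube δ (a i) (e i) ∩ A) →
      ENNReal.ofReal (c * lam ^ n / (1 + K * M) ^ (n - 1) * (Fintype.card ι * δ ^ (n - 1))) ≤
        volume A) := by
  have hd0 : (0 : ℝ) < (n : ℝ) - 1 := by
    have : (2 : ℝ) ≤ n := by exact_mod_cast hn
    linarith
  have hnd : (n : ℝ) / ((n : ℝ) - 1) = 1 + 1 / ((n : ℝ) - 1) := by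
    field_simp
    ring
  refine ⟨?_, ?_, ?_⟩
  · intro q hq
    rw [hnd] at hq
    obtain ⟨C, hC, h⟩ := Q123.XP.strong' hn hq
    exact ⟨C, hC, fun δ hδ hδ1 ι _ a e he K M hK P hP hM =>
      h δ hδ hδ1 ι a e he.1 he.2 K M hK P hP hM⟩
  · obtain ⟨C, hC, h⟩ := Q123.XP.weak hn
    refine ⟨C, hC, fun δ hδ hδ1 ι _ a e he K M hK P hP hM s hs => ?_⟩
    refine ((h δ hδ hδ1 ι a e he.1 he.2 K hK P hP s hs).1).trans (ENNReal.ofReal_le_ofReal ?_)
    have h2 : ∑ i, (1 + K * ((P i).card : ℝ)) ≤ Fintype.card ι * (1 + K * M) := by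
      rw [Finset.sum_add_distrib, ← Finset.mul_sum, Finset.sum_const, Finset.card_univ,
        nsmul_eq_mul, mul_one]
      nlinarith [mul_le_mul_of_nonneg_left hM hK.le]
    have h3 : 0 ≤ δ ^ (n - 1) * s ^ (-1 - 1 / ((n : ℝ) - 1)) :=
      mul_nonneg (pow_nonneg hδ.le _) (Real.rpow_nonneg hs.le _)
    calc C * ((∑ i, (1 + K * ((P i).card : ℝ))) * (δ ^ (n - 1) * s ^ (-1 - 1 / ((n : ℝ) - 1))))
        ≤ C * ((Fintype.card ι * (1 + K * M)) * (δ ^ (n - 1) * s ^ (-1 - 1 / ((n : ℝ) - 1)))) :=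
          mul_le_mul_of_nonneg_left (mul_le_mul_of_nonneg_right h2 h3) hC.le
      _ = _ := by
          rw [hnd, show -(1 + 1 / ((n : ℝ) - 1)) = -1 - 1 / ((n : ℝ) - 1) by ring]
          ring
  · obtain ⟨c, hc, h⟩ := Q123.XP.sets hn
    exact ⟨c, hc, fun δ hδ hδ1 ι _ a e he K M hK P hP hM lam A hlam hA hsum =>
      h δ hδ hδ1 ι a e he.1 he.2 K M hK P hP hM lam A hlam hA hsum⟩

end Pool.Agent.Results.MP_850839_an.CrossingPlaces
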