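import Pool.Agent.Q61.KH11

/-!
Tubes whose positions depend Hoelder continuously on the direction.

We work in `ℝ^(d+1) = ℝ^d × ℝ`; the line with slope `w : ℝ^d` and position `F w` is
`{(F w + t w, t)}`, and the `δ`-tube around its part over `0 ≤ t ≤ 1` is
`{(y, t) : 0 ≤ t ≤ 1, ‖y - (F w + t w)‖ ≤ δ}` (sup norm).  If the slopes `w ∈ V` fill a ball of
radius `r` up to `δ` (and up to the modulus of `F`), and if the `l`-th coordinate of the position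
is Hoelder continuous with exponent `α l`, where `∑ α l > d - 1`, then the union of the tubes has
volume at least `c r^d (1 + ∑ H_l r^(α_l - 1))^(-N)`, with no loss in `δ`.
-/

open MeasureTheory

namespace Pool.Agent.Results.MP_850839_an.HolderSelections

theorem result (d : ℕ) (hd : 1 ≤ d) (α : Fin d → ℝ) (hα0 : ∀ l, 0 < α l) (hα1 : ∀ l, α l ≤ 1)
    (hα : (d : ℝ) - 1 < ∑ l, α l) :
    ∃ c N : ℝ, 0 < c ∧ 0 < N ∧
      ∀ (H : Fin d → ℝ) (r δ : ℝ) (v₀ : Fin d → ℝ) (V : Set (Fin d → ℝ))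
        (F : (Fin d → ℝ) → (Fin d → ℝ)), (∀ l, 0 ≤ H l) → 0 < r → 0 ≤ δ →
        (∀ v ∈ V, ∀ w ∈ V, ∀ l, |F v l - F w l| ≤ H l * ‖v - w‖ ^ α l) →
        (∀ v, ‖v - v₀‖ ≤ r → ∃ w ∈ V, ‖v - w‖ ≤ δ ∧ ∀ l, H l * ‖v - w‖ ^ α l ≤ δ) →
        ∀ K : Set ((Fin d → ℝ) × ℝ),
          (∀ w ∈ V, ∀ t : ℝ, 0 ≤ t → t ≤ 1 → ∀ y, ‖y - (F w + t • w)‖ ≤ δ → (y, t) ∈ K) →
          ENNReal.ofReal (c * r ^ d * (1 + ∑ l, H l * r ^ (α l - 1)) ^ (-N)) ≤ volume K :=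
  Q61.KH.main hd hα0 hα1 hα

end Pool.Agent.Results.MP_850839_an.HolderSelections
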