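import Pool.Agent.Q67.KT.Norm

set_option autoImplicit false

/-!
# MP_850839: the tube inequality without loss for tubes organised in a tree of slabs

Let `n = d + 1 ≥ 2` and `q > n/(n-1)`.  Every tube of the family has a label `k ∈ ℤ^d`.  To every
initial segment `(k_0, …, k_j)` of a label belongs a slab, the `K δ`-neighbourhood of a hyperplane,
which contains all the tubes whose labels begin with this segment; and the tube with label `k` makes
an angle at least `κ δ |k_j - k'_j|` with the slab of a sibling `(k_0, …, k_{j-1}, k'_j)`.  The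
hyperplanes may have arbitrary directions and nothing else is assumed on the positions (nor on the
directions) of the tubes; all Besicovitch type compressions of the slabs are allowed, and of the tubes
of a slab inside of it.  For such families, and for unions of `L` such families, the inequality of the
problem holds in the full range without any loss in `δ` and with the conjectured dependence on the
number of the tubes.

The proof replaces the product of the numbers of siblings present at a point by a weighted version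
(the weight of a node is the power `q' = γ/(γ+1)` of its number of tubes, `γ = (n-1)(q-1)`), and sums
over pairs of siblings with a discrete Hardy-Littlewood-Sobolev inequality.
-/

open MeasureTheory

namespace Pool.Agent.Results.MP_850839_an.SlabTrees

/-- The `δ`-tube with centre `a` and direction `e` (a unit vector): the closed cylinder of length
`1` and radius `δ` around the segment with centre `a` and direction `e`. -/
def tube {n : ℕ} (δ : ℝ) (a e : EuclideanSpace ℝ (Fin n)) : Set (EuclideanSpace ℝ (Fin n)) :=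
  {y | |inner ℝ (y - a) e| ≤ 1 / 2 ∧ ‖(y - a) - (inner ℝ (y - a) e) • e‖ ≤ δ}

/-- The slab of half-width `w` around the hyperplane `⟨y, ν⟩ = h`. -/
def slab {n : ℕ} (w : ℝ) (ν : EuclideanSpace ℝ (Fin n)) (h : ℝ) : Set (EuclideanSpace ℝ (Fin n)) :=
  {y | |inner ℝ y ν - h| ≤ w}

/-- The labels of `i` and `i'` agree before the position `j`. -/
def Agree {ι : Type} {d : ℕ} (lab : ι → Fin d → ℤ) (j : ℕ) (i i' : ι) : Prop :=
  ∀ l : Fin d, (l : ℕ) < j → lab i l = lab i' l

/-- The tubes with centres `a i` and directions `e i` in `ℝ^(d+1)` are organised in a tree of slabs of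
half-width `K δ`, with transversality `κ`: `ν j i` and `h j i` are the normal and the height of the
slab that belongs to the first `j + 1` entries of the label of `i`. -/
def SlabTree {ι : Type} {d : ℕ} (δ K κ : ℝ) (a e : ι → EuclideanSpace ℝ (Fin (d + 1))) : Prop :=
  ∃ (lab : ι → Fin d → ℤ) (ν : Fin d → ι → EuclideanSpace ℝ (Fin (d + 1))) (h : Fin d → ι → ℝ),
    Function.Injective lab ∧ (∀ j i, ‖ν j i‖ = 1) ∧
    (∀ (j : Fin d) i i', Agree lab (j + 1) i i' → ν j i = ν j i' ∧ h j i = h j i') ∧
    (∀ j i, tube δ (a i) (e i) ⊆ slab (K * δ) (ν j i) (h j i)) ∧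
    ∀ (j : Fin d) i i', Agree lab j i i' →
      κ * δ * |(lab i j : ℝ) - lab i' j| ≤ |inner ℝ (e i) (ν j i')|

/-- **The tube inequality in the full range `q > n/(n-1)`, `n = d + 1`, without loss and with the
conjectured dependence on the number of tubes, for unions of `L` families organised in trees of
slabs.** -/
theorem result (d : ℕ) (hd : 1 ≤ d) (q : ℝ) (hq : ((d : ℝ) + 1) / d < q) :
    ∃ C : ℝ, 0 < C ∧ ∀ δ K κ : ℝ, 0 < δ → δ < 1 → 0 ≤ K → 0 < κ → κ ≤ 1 →
      ∀ (ι : Type) [Fintype ι] (a e : ι → EuclideanSpace ℝ (Fin (d + 1))), (∀ i, ‖e i‖ = 1) →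
      ∀ (L : ℕ) (χ : ι → Fin L),
        (∀ l, SlabTree δ K κ (fun i : {i // χ i = l} => a i) (fun i => e i)) →
        eLpNorm (fun x => ∑ i, (tube δ (a i) (e i)).indicator (fun _ => (1 : ℝ)) x)
            (ENNReal.ofReal q) volume ≤
          ENNReal.ofReal (C * ((1 + K) / κ) ^ (1 / q) * (L : ℝ) ^ (1 / (q * d)) *
            δ ^ ((d : ℝ) / q) * (Fintype.card ι : ℝ) ^ (1 - 1 / (q * d))) := by
  have hd0 : (0 : ℝ) < d := by exact_mod_cast hd
  have hq' : 1 + 1 / (d : ℝ) < q := by
    refine lt_of_eq_of_lt ?_ hq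
    field_simp
  have h1d : 0 < 1 / (d : ℝ) := by positivity
  have hq1 : 1 < q := by linarith
  have hγ : 1 < d * (q - 1) := by
    have h2 : 1 / (d : ℝ) < q - 1 := by linarith
    rwa [div_lt_iff₀ hd0, mul_comm] at h2
  have hCc := Q67.KT.Cc_pos hγ
  have hvb := Pool.Agent.TH705.RR.vb_pos (d + 1)
  set A : ℝ := Q67.KT.Cc (d * (q - 1)) * (2 ^ (d + 1) * Pool.Agent.TH705.RR.vb (d + 1)) with hA
  have hA0 : 0 < A := by positivity
  refine ⟨(A * 10) ^ (1 / q), by positivity, ?_⟩
  intro δ K κ hδ hδ1 hK hκ hκ1 ι _ a e he L χ hT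
  refine (Q67.KT.elp_union (B := (Q67.KT.Cc (d * (q - 1)) *
    (2 ^ (d + 1) * Pool.Agent.TH705.RR.vb (d + 1) * (10 * ((K + 1) / κ)))) ^ (1 / q)) hd hδ hq1
    (by positivity) a e χ ?_).trans (le_of_eq ?_)
  · intro l
    obtain ⟨lab, ν, h, hinj, hν, hc, hsub, htr⟩ := hT l
    refine Q67.KT.tree_one hd hq' hδ hδ1 hK hκ hκ1 (fun i : {i // χ i = l} => a i) (fun i => e i)
      (fun i => he i) hinj ν h hν (fun j i i' hii => hc j i i' hii) hsub ?_
    intro j i i' hii
    refine le_trans (le_of_eq ?_) (htr j i i' hii)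
    congr 1
    unfold Q67.KT.dd
    rw [Nat.cast_natAbs, abs_sub_comm]
    push_cast
    rfl
  · congr 1
    have e1 : Q67.KT.Cc (d * (q - 1)) *
        (2 ^ (d + 1) * Pool.Agent.TH705.RR.vb (d + 1) * (10 * ((K + 1) / κ))) =
        (A * 10) * ((1 + K) / κ) := by
      rw [hA]; ring
    rw [e1, Real.mul_rpow (by positivity) (by positivity)]

end Pool.Agent.Results.MP_850839_an.SlabTrees
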