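import Pool.Agent.Q85.ZE.K

set_option autoImplicit false

/-!
# MP_850839: tubes in generic directions and arbitrary sets, with a loss given by the numbers of zooms

Let `d = n + 1 ≥ 2` and `δ = q^(-J)`. The zooms of a set `A` at level `j` are the sets
`q^j (A ∩ Q)`, up to translation, where `Q` is a cube of side `q^(-j)` of the `q`-adic grid.

(1) For every set `A` of cells of side `δ` and for every tube `T` of radius `δ` whose direction is
outside of a set `E` of small measure, which depends neither on `A` nor on the position of `T`,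
`|T ∩ A| ≤ loss · |T| |A|^(1/d)`, where the `d`-th power of the loss is at most
`C δ^(-d(d-1)/(2J)) K^((d-1)J)` times the product of the numbers `N_j`, `j < J`, of the different
zooms of level `j` of `A` which are seen along `T ∩ A`. The power `1/d` is optimal (cubes).

(2) So if the numbers `N_j` are at most `δ^(-h)`, then `|T ∩ A| ≤ C δ^(-ε) |T| |A|^(1/d)`, the
conjectured inequality for the Kakeya maximal function, at every direction outside of `E`; and if
the sets where the multiplicity function of a family of tubes is at least `2^k` are comparable with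
sets of this kind, then the inequality of the problem holds in the full range `p > d/(d-1)`, in the
strong form `‖∑ 1_T‖_p ≤ C δ^((d-ε)/p) #T`.

The proof: let `X` be a random point of `T ∩ A`. The relative position of the cube of level `j + 1`
of `X` inside its cube of level `j`, together with the cube of level `j - n` of `X`, determines the
cube of level `j + 1` up to a bounded number of possibilities, because the direction of `T` is badly
approximable at this scale. So the entropy of the relative position, given the zoom of level `j`, is at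
least the entropy of the cube of level `j + 1` minus the entropy of the cube of level `j - n`, minus
the entropy of the zoom. The sum over `j` telescopes to `d` times the entropy of `X`, and it is a lower
bound for the logarithm of the number of cells of `A`, by Gibbs' inequality on the tree of the zooms.
-/

namespace Pool.Agent.Results.MP_850839_an.ZoomNumbers

open MeasureTheory Q85.ZE
open scoped ENNReal

/-- **The tube inequality for arbitrary sets and generic directions, with a loss given by the numbers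
of zooms along the tube**, and the full range of the conjecture for families of tubes whose
multiplicity function has few zooms. -/
theorem result (n L R : ℕ) (hn : 1 ≤ n) (hR : 1 ≤ R) :
    (∀ J : ℕ, ∃ C : ℝ, 0 < C ∧ ∀ q K : ℕ, 1 ≤ q → 1 ≤ K → ∀ δ : ℝ, δ = ((q:ℝ) ^ J)⁻¹ →
      ∃ E : Set (Fin n → ℝ), MeasurableSet E ∧ volume E ≤ ENNReal.ofReal (C / (K:ℝ) ^ n) ∧
      ∀ (𝒜 : Set (Fin (n + 1) → ℤ)) (c e : EuclideanSpace ℝ (Fin (n + 1))) (ℓ ρ : ℝ),
        Admissible L E e → ℓ ≤ R → ρ ≤ R * δ →
        volume (tube ℓ ρ c e ∩ cells δ 𝒜) ^ (n + 1) ≤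
          ENNReal.ofReal (C * (q:ℝ) ^ (n * (n + 1) / 2) * (K:ℝ) ^ (n * J) *
            (∏ j ∈ Finset.range J,
              (zoomNumber ((q:ℝ) ^ j)⁻¹ (tube ℓ ρ c e) (cells δ 𝒜) : ℝ)) *
            δ ^ (n * (n + 1))) * volume (cells δ 𝒜)) ∧
    (∀ ε p : ℝ, 0 < ε → ((n:ℝ) + 1) / n < p →
      ∃ J : ℕ, 1 ≤ J ∧ ∃ κ h C : ℝ, 0 < κ ∧ 0 < h ∧ 0 < C ∧
      ∀ q : ℕ, 1 ≤ q → ∀ δ : ℝ, δ = ((q:ℝ) ^ J)⁻¹ →
      ∃ E : Set (Fin n → ℝ), MeasurableSet E ∧ volume E ≤ ENNReal.ofReal (C * δ ^ κ) ∧
      (∀ (𝒜 : Set (Fin (n + 1) → ℤ)) (c e : EuclideanSpace ℝ (Fin (n + 1))), Admissible L E e →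
        (∀ j < J, (zoomNumber ((q:ℝ) ^ j)⁻¹ (tube R (R * δ) c e) (cells δ 𝒜) : ℝ) ≤ δ ^ (-h)) →
        volume (tube R (R * δ) c e ∩ cells δ 𝒜) ^ (n + 1) ≤
          ENNReal.ofReal (C * δ ^ (n * ((n:ℝ) + 1 - ε))) * volume (cells δ 𝒜)) ∧
      ∀ (ι : Type) [Fintype ι] (c e : ι → EuclideanSpace ℝ (Fin (n + 1))),
        (∀ i, Admissible L E (e i)) → ∀ 𝒜 : ℕ → Set (Fin (n + 1) → ℤ),
        (∀ k, {x | (2:ℝ≥0∞) ^ k ≤ ∑ i, (tube (1 / 2) δ (c i) (e i)).indicator 1 x}
          ⊆ cells δ (𝒜 k)) →
        (∀ k, cells δ (𝒜 k)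
          ⊆ {x | (2:ℝ≥0∞) ^ k ≤ R * ∑ i, (tube R (R * δ) (c i) (e i)).indicator 1 x}) →
        (∀ k i, ∀ j < J, (zoomNumber ((q:ℝ) ^ j)⁻¹ (tube R (R * δ) (c i) (e i))
          (cells δ (𝒜 k)) : ℝ) ≤ δ ^ (-h)) →
        ∫⁻ x, (∑ i, (tube (1 / 2) δ (c i) (e i)).indicator 1 x) ^ p ≤
          ENNReal.ofReal (C * (Fintype.card ι : ℝ) ^ p * δ ^ (n + 1 - ε))) := by
  refine ⟨fun J => ?_, fun ε p hε hp => ?_⟩
  · obtain ⟨C, hC, H⟩ := part_one n L R hR J
    refine ⟨C, hC, fun q K hq hK δ hδ => ?_⟩
    subst hδ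
    exact H q K hq hK
  · exact part_two n L R hn hR hε (by push_cast; exact hp)

end Pool.Agent.Results.MP_850839_an.ZoomNumbers
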